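import Mathlib

-- merged part: Pool.Agent.Lib.Haxell.Basic
section
/-!
Haxell's theorem on independent transversals, in domination form and with deficiency.
-/

namespace Pool.Agent.Lib.Haxell

open Classical

variable {V ι : Type*}

/-- `T ⊆ U` is independent in `G` and meets every class `i ∈ I` of the labelling `σ`. -/
def IsIT (G : SimpleGraph V) (U : Set V) (σ : V → ι) (I : Finset ι) (T : Set V) : Prop :=
  T ⊆ U ∧ (∀ x ∈ T, ∀ y ∈ T, ¬ G.Adj x y) ∧ ∀ i ∈ I, ∃ x ∈ T, σ x = i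

theorem haxell_aux [Fintype V] (n : ℕ) : ∀ (I : Finset ι), I.card = n →
    ∀ (m : ℕ) (G : SimpleGraph V), G.edgeSet.ncard = m → ∀ (U : Set V) (σ : V → ι) (a : ι),
    a ∈ I → (¬ ∃ T, IsIT G U σ I T) → (∃ T, IsIT G U σ (I.erase a) T) →
    ∃ S : Finset ι, S ⊆ I ∧ a ∈ S ∧ ∃ Z : Finset V, Z.card + 2 ≤ 2 * S.card ∧
      ∀ x ∈ U, σ x ∈ S → ∃ z ∈ Z, G.Adj x z := by
  induction n using Nat.strong_induction_on with
  | _ n ihn =>
  intro I hI m
  induction m using Nat.strong_induction_on with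
  | _ m ihm =>
  intro G hG U σ a ha hno hT0
  by_cases hne : ∃ u ∈ U, σ u = a
  swap
  · refine ⟨{a}, by simpa using ha, by simp, ∅, by simp, fun x hx hxa => ?_⟩
    exact (hne ⟨x, hx, by simpa using hxa⟩).elim
  obtain ⟨u, huU, hua⟩ := hne
  obtain ⟨T0, h01, h02, h03⟩ := hT0
  have hv : ∃ v ∈ T0, σ v ∈ I.erase a ∧ G.Adj u v := by
    by_contra hc
    push Not at hc
    refine hno ⟨insert u {x ∈ T0 | σ x ∈ I.erase a}, ?_, ?_, ?_⟩
    · rintro x (rfl | hx)
      · exact huU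
      · exact h01 hx.1
    · rintro x (rfl | hx) y (rfl | hy)
      · exact G.irrefl
      · exact hc y hy.1 hy.2
      · exact fun h => hc x hx.1 hx.2 h.symm
      · exact h02 x hx.1 y hy.1
    · intro i hi
      by_cases hia : i = a
      · exact ⟨u, Or.inl rfl, hua.trans hia.symm⟩
      · obtain ⟨x, hx, hxi⟩ := h03 i (Finset.mem_erase.2 ⟨hia, hi⟩)
        exact ⟨x, Or.inr ⟨hx, hxi ▸ Finset.mem_erase.2 ⟨hia, hi⟩⟩, hxi⟩
  obtain ⟨v, hvT, hvI, huv⟩ := hv
  have hvU : v ∈ U := h01 hvT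
  set b := σ v with hb
  have hba : b ≠ a := (Finset.mem_erase.1 hvI).1
  have hbI : b ∈ I := (Finset.mem_erase.1 hvI).2
  let G' := G.deleteEdges {s(u, v)}
  have hG'adj : ∀ x y, G'.Adj x y ↔ G.Adj x y ∧ s(x, y) ≠ s(u, v) := by
    intro x y; simp [G']
  by_cases hIT : ∃ T, IsIT G' U σ I T
  swap
  · have hlt : G'.edgeSet.ncard < m := by
      rw [← hG]
      refine Set.ncard_lt_ncard ⟨fun e he => ?_, fun h => ?_⟩ (Set.toFinite _)
      · simp only [G', SimpleGraph.edgeSet_deleteEdges] at he; exact he.1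
      · have : s(u, v) ∈ G'.edgeSet := h huv
        simp [G'] at this
    obtain ⟨S, h1, h2, Z, h3, h4⟩ := ihm _ hlt G' rfl U σ a ha hIT
      ⟨T0, h01, fun x hx y hy h => h02 x hx y hy ((hG'adj x y).1 h).1, h03⟩
    refine ⟨S, h1, h2, Z, h3, fun x hx hxS => ?_⟩
    obtain ⟨z, hz, hxz⟩ := h4 x hx hxS
    exact ⟨z, hz, ((hG'adj x z).1 hxz).1⟩
  obtain ⟨T, h1, h2, h3⟩ := hIT
  have huvT : u ∈ T ∧ v ∈ T := by
    by_contra hc
    refine hno ⟨T, h1, fun x hx y hy hxy => h2 x hx y hy ((hG'adj x y).2 ⟨hxy, fun e => hc ?_⟩), h3⟩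
    rcases Sym2.eq_iff.1 e with ⟨rfl, rfl⟩ | ⟨rfl, rfl⟩
    · exact ⟨hx, hy⟩
    · exact ⟨hy, hx⟩
  let U' : Set V := {x ∈ U | ¬ G.Adj x u ∧ ¬ G.Adj x v}
  let σ' : V → ι := fun x => if σ x = b then a else σ x
  have hcard : (I.erase b).card < n := by
    rw [← hI]; exact Finset.card_erase_lt_of_mem hbI
  refine (ihn _ hcard (I.erase b) rfl _ G rfl U' σ' a
    (Finset.mem_erase.2 ⟨hba.symm, ha⟩) ?_ ?_).elim ?_
  rotate_left 2
  · rintro S ⟨hS1, hS2, Z, hZ1, hZ2⟩
    have hbS : b ∉ S := fun h => (Finset.mem_erase.1 (hS1 h)).1 rfl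
    refine ⟨insert b S, ?_, Finset.mem_insert_of_mem hS2, insert u (insert v Z), ?_, ?_⟩
    · intro i hi
      rcases Finset.mem_insert.1 hi with rfl | hi
      · exact hbI
      · exact (Finset.mem_erase.1 (hS1 hi)).2
    · rw [Finset.card_insert_of_notMem hbS]
      have := Finset.card_insert_le u (insert v Z)
      have := Finset.card_insert_le v Z
      omega
    · intro x hx hxS
      by_cases c1 : G.Adj x u
      · exact ⟨u, by simp, c1⟩
      by_cases c2 : G.Adj x v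
      · exact ⟨v, by simp, c2⟩
      have : σ' x ∈ S := by
        simp only [σ']
        split_ifs with c
        · exact hS2
        · exact (Finset.mem_insert.1 hxS).resolve_left c
      obtain ⟨z, hz, hxz⟩ := hZ2 x ⟨hx, c1, c2⟩ this
      exact ⟨z, by simp [hz], hxz⟩
  · rintro ⟨T', g1, g2, g3⟩
    obtain ⟨y, hy, hya⟩ := g3 a (Finset.mem_erase.2 ⟨hba.symm, ha⟩)
    have hoth : ∀ i ∈ I, i ≠ a → i ≠ b → ∃ x ∈ T', σ x = i := by
      intro i hi h1 h2
      obtain ⟨x, hx, hxi⟩ := g3 i (Finset.mem_erase.2 ⟨h2, hi⟩)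
      refine ⟨x, hx, ?_⟩
      simp only [σ'] at hxi
      split_ifs at hxi with c
      · exact (h1 hxi.symm).elim
      · exact hxi
    have hins : ∀ w, w ∈ U → (∀ x ∈ T', ¬ G.Adj x w) →
        (∀ i ∈ I, ∃ x ∈ insert w T', σ x = i) → False := by
      intro w hw hw2 hw3
      refine hno ⟨insert w T', ?_, ?_, hw3⟩
      · rintro x (rfl | hx)
        · exact hw
        · exact (g1 hx).1
      · rintro x (rfl | hx) z (rfl | hz)
        · exact G.irrefl
        · exact fun h => hw2 z hz h.symm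
        · exact hw2 x hx
        · exact g2 x hx z hz
    by_cases c : σ y = b
    · refine hins u huU (fun x hx => (g1 hx).2.1) fun i hi => ?_
      by_cases i1 : i = a
      · exact ⟨u, Or.inl rfl, hua.trans i1.symm⟩
      by_cases i2 : i = b
      · exact ⟨y, Or.inr hy, c.trans i2.symm⟩
      obtain ⟨x, hx, hxi⟩ := hoth i hi i1 i2
      exact ⟨x, Or.inr hx, hxi⟩
    · have hya' : σ y = a := by simpa only [σ', if_neg c] using hya
      refine hins v hvU (fun x hx => (g1 hx).2.2) fun i hi => ?_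
      by_cases i1 : i = a
      · exact ⟨y, Or.inr hy, hya'.trans i1.symm⟩
      by_cases i2 : i = b
      · exact ⟨v, Or.inl rfl, i2.symm⟩
      obtain ⟨x, hx, hxi⟩ := hoth i hi i1 i2
      exact ⟨x, Or.inr hx, hxi⟩
  · refine ⟨{x ∈ T | x ≠ u ∧ x ≠ v}, ?_, ?_, ?_⟩
    · rintro x ⟨hx, hxu, hxv⟩
      refine ⟨h1 hx, fun h => h2 x hx u huvT.1 ((hG'adj x u).2 ⟨h, fun e => ?_⟩),
        fun h => h2 x hx v huvT.2 ((hG'adj x v).2 ⟨h, fun e => ?_⟩)⟩
      · rcases Sym2.eq_iff.1 e with ⟨h, -⟩ | ⟨h, -⟩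
        · exact hxu h
        · exact hxv h
      · rcases Sym2.eq_iff.1 e with ⟨h, -⟩ | ⟨h, -⟩
        · exact hxu h
        · exact hxv h
    · rintro x ⟨hx, hxu, hxv⟩ y ⟨hy, -⟩ hxy
      refine h2 x hx y hy ((hG'adj x y).2 ⟨hxy, fun e => ?_⟩)
      rcases Sym2.eq_iff.1 e with ⟨h, -⟩ | ⟨h, -⟩
      · exact hxu h
      · exact hxv h
    · intro i hi
      obtain ⟨hia, hi⟩ := Finset.mem_erase.1 hi
      obtain ⟨hib, hi⟩ := Finset.mem_erase.1 hi
      obtain ⟨x, hx, hxi⟩ := h3 i hi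
      refine ⟨x, ⟨hx, fun e => hia ?_, fun e => hib ?_⟩, ?_⟩
      · rw [← hxi, e, hua]
      · rw [← hxi, e]
      · simp only [σ']
        rw [if_neg (by rw [hxi]; exact hib), hxi]

/-- Haxell's theorem with deficiency. Let `K` be a finite set of classes. There are a set `J ⊆ K` of
classes met by an independent set, and, if `J ≠ K`, a set `B` with `K \ J ⊆ B ⊆ K` whose classes
are dominated by at most `2 |B ∩ J|` vertices. -/
theorem haxell_deficiency [Fintype V] (G : SimpleGraph V) (σ : V → ι) (K : Finset ι) :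
    ∃ J : Finset ι, J ⊆ K ∧ (∃ T, IsIT G Set.univ σ J T) ∧
      ∃ B : Finset ι, B ⊆ K ∧ K \ J ⊆ B ∧ ∃ Z : Finset V, Z.card ≤ 2 * (B ∩ J).card ∧
        ∀ x, σ x ∈ B → ∃ z ∈ Z, G.Adj x z := by
  obtain ⟨J, hJ, hmax⟩ := Finset.exists_max_image
    (K.powerset.filter fun J => ∃ T, IsIT G Set.univ σ J T) Finset.card
    ⟨∅, by
      simp only [Finset.mem_filter, Finset.mem_powerset, Finset.empty_subset, true_and]
      exact ⟨∅, by simp, by simp, by simp⟩⟩
  simp only [Finset.mem_filter, Finset.mem_powerset] at hJ hmax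
  refine ⟨J, hJ.1, hJ.2, ?_⟩
  by_cases hKJ : K \ J = ∅
  · exact ⟨∅, by simp, by simp [hKJ], ∅, by simp, by simp⟩
  obtain ⟨a, ha⟩ := Finset.nonempty_iff_ne_empty.2 hKJ
  obtain ⟨haK, haJ⟩ := Finset.mem_sdiff.1 ha
  let σ' : V → ι := fun x => if σ x ∈ K \ J then a else σ x
  refine (haxell_aux _ (insert a J) rfl _ G rfl Set.univ σ' a
    (Finset.mem_insert_self _ _) ?_ ?_).elim ?_
  rotate_left 2
  · rintro S ⟨hS1, hS2, Z, hZ1, hZ2⟩
    refine ⟨K \ J ∪ S.erase a, ?_, Finset.subset_union_left, Z, ?_, fun x hx => ?_⟩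
    · intro i hi
      rcases Finset.mem_union.1 hi with hi | hi
      · exact (Finset.mem_sdiff.1 hi).1
      · obtain ⟨h1, h2⟩ := Finset.mem_erase.1 hi
        exact hJ.1 ((Finset.mem_insert.1 (hS1 h2)).resolve_left h1)
    · have : S.erase a ⊆ (K \ J ∪ S.erase a) ∩ J := by
        intro i hi
        obtain ⟨h1, h2⟩ := Finset.mem_erase.1 hi
        exact Finset.mem_inter.2 ⟨Finset.mem_union_right _ hi,
          (Finset.mem_insert.1 (hS1 h2)).resolve_left h1⟩
      have h1 := Finset.card_le_card this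
      have h2 := Finset.card_erase_add_one hS2
      omega
    · refine hZ2 x trivial ?_
      simp only [σ']
      split_ifs with c
      · exact hS2
      · exact (Finset.mem_erase.1 ((Finset.mem_union.1 hx).resolve_left c)).2
  · rintro ⟨T, h1, h2, h3⟩
    obtain ⟨y, hy, hya⟩ := h3 a (Finset.mem_insert_self _ _)
    have hyK : σ y ∈ K \ J := by
      by_contra c
      simp only [σ', if_neg c] at hya
      exact c (hya ▸ ha)
    obtain ⟨hy1, hy2⟩ := Finset.mem_sdiff.1 hyK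
    have := hmax (insert (σ y) J) ⟨Finset.insert_subset hy1 hJ.1, T, h1, h2, fun i hi => ?_⟩
    · rw [Finset.card_insert_of_notMem hy2] at this; omega
    · rcases Finset.mem_insert.1 hi with rfl | hi
      · exact ⟨y, hy, rfl⟩
      · obtain ⟨x, hx, hxi⟩ := h3 i (Finset.mem_insert_of_mem hi)
        refine ⟨x, hx, ?_⟩
        simp only [σ'] at hxi
        split_ifs at hxi with c
        · exact (haJ (hxi ▸ hi)).elim
        · exact hxi
  · obtain ⟨T, h1, h2, h3⟩ := hJ.2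
    refine ⟨T, h1, h2, fun i hi => ?_⟩
    rw [Finset.erase_insert haJ] at hi
    obtain ⟨x, hx, hxi⟩ := h3 i hi
    refine ⟨x, hx, ?_⟩
    simp only [σ']
    rw [if_neg (by rw [hxi]; simp [hi]), hxi]

end Pool.Agent.Lib.Haxell
end

-- merged part: Pool.Agent.Lib.Haxell.Refined
section
/-!
A refinement of Haxell's theorem: one vertex of the dominating set is only needed inside one class.
-/

namespace Pool.Agent.Lib.Haxell

open Classical

variable {V ι : Type*}

theorem haxell_aux' [Fintype V] (n : ℕ) : ∀ (I : Finset ι), I.card = n →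
    ∀ (m : ℕ) (G : SimpleGraph V), G.edgeSet.ncard = m → ∀ (U : Set V) (σ : V → ι) (a : ι),
    a ∈ I → (¬ ∃ T, IsIT G U σ I T) → (∃ T, IsIT G U σ (I.erase a) T) →
    (∀ x ∈ U, σ x ≠ a) ∨
    ∃ S : Finset ι, S ⊆ I ∧ a ∈ S ∧ ∃ (Z : Finset V) (w : V) (y : ι), y ≠ a ∧
      Z.card + 3 ≤ 2 * S.card ∧
      ∀ x ∈ U, σ x ∈ S → (∃ z ∈ Z, G.Adj x z) ∨ (σ x = y ∧ G.Adj x w) := by
  induction n using Nat.strong_induction_on with
  | _ n ihn =>
  intro I hI m
  induction m using Nat.strong_induction_on with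
  | _ m ihm =>
  intro G hG U σ a ha hno hT0
  by_cases hne : ∃ u ∈ U, σ u = a
  swap
  · exact Or.inl fun x hx hxa => hne ⟨x, hx, hxa⟩
  obtain ⟨u, huU, hua⟩ := hne
  right
  obtain ⟨T0, h01, h02, h03⟩ := hT0
  have hv : ∃ v ∈ T0, σ v ∈ I.erase a ∧ G.Adj u v := by
    by_contra hc
    push Not at hc
    refine hno ⟨insert u {x ∈ T0 | σ x ∈ I.erase a}, ?_, ?_, ?_⟩
    · rintro x (rfl | hx)
      · exact huU
      · exact h01 hx.1
    · rintro x (rfl | hx) y (rfl | hy)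
      · exact G.irrefl
      · exact hc y hy.1 hy.2
      · exact fun h => hc x hx.1 hx.2 h.symm
      · exact h02 x hx.1 y hy.1
    · intro i hi
      by_cases hia : i = a
      · exact ⟨u, Or.inl rfl, hua.trans hia.symm⟩
      · obtain ⟨x, hx, hxi⟩ := h03 i (Finset.mem_erase.2 ⟨hia, hi⟩)
        exact ⟨x, Or.inr ⟨hx, hxi ▸ Finset.mem_erase.2 ⟨hia, hi⟩⟩, hxi⟩
  obtain ⟨v, hvT, hvI, huv⟩ := hv
  have hvU : v ∈ U := h01 hvT
  set b := σ v with hb
  have hba : b ≠ a := (Finset.mem_erase.1 hvI).1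
  have hbI : b ∈ I := (Finset.mem_erase.1 hvI).2
  let G' := G.deleteEdges {s(u, v)}
  have hG'adj : ∀ x y, G'.Adj x y ↔ G.Adj x y ∧ s(x, y) ≠ s(u, v) := by
    intro x y; simp [G']
  by_cases hIT : ∃ T, IsIT G' U σ I T
  swap
  · have hlt : G'.edgeSet.ncard < m := by
      rw [← hG]
      refine Set.ncard_lt_ncard ⟨fun e he => ?_, fun h => ?_⟩ (Set.toFinite _)
      · simp only [G', SimpleGraph.edgeSet_deleteEdges] at he; exact he.1
      · have : s(u, v) ∈ G'.edgeSet := h huv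
        simp [G'] at this
    rcases ihm _ hlt G' rfl U σ a ha hIT
      ⟨T0, h01, fun x hx y hy h => h02 x hx y hy ((hG'adj x y).1 h).1, h03⟩ with
      h | ⟨S, h1, h2, Z, w, y, hy, h3, h4⟩
    · exact (h u huU hua).elim
    refine ⟨S, h1, h2, Z, w, y, hy, h3, fun x hx hxS => ?_⟩
    rcases h4 x hx hxS with ⟨z, hz, hxz⟩ | ⟨h5, h6⟩
    · exact Or.inl ⟨z, hz, ((hG'adj x z).1 hxz).1⟩
    · exact Or.inr ⟨h5, ((hG'adj x w).1 h6).1⟩
  obtain ⟨T, h1, h2, h3⟩ := hIT
  have huvT : u ∈ T ∧ v ∈ T := by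
    by_contra hc
    refine hno ⟨T, h1, fun x hx y hy hxy => h2 x hx y hy ((hG'adj x y).2 ⟨hxy, fun e => hc ?_⟩), h3⟩
    rcases Sym2.eq_iff.1 e with ⟨rfl, rfl⟩ | ⟨rfl, rfl⟩
    · exact ⟨hx, hy⟩
    · exact ⟨hy, hx⟩
  let U' : Set V := {x ∈ U | (σ x = a ∨ ¬ G.Adj x u) ∧ ¬ G.Adj x v}
  let σ' : V → ι := fun x => if σ x = b then a else σ x
  have hcard : (I.erase b).card < n := by
    rw [← hI]; exact Finset.card_erase_lt_of_mem hbI
  refine (ihn _ hcard (I.erase b) rfl _ G rfl U' σ' a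
    (Finset.mem_erase.2 ⟨hba.symm, ha⟩) ?_ ?_).elim ?_ ?_
  rotate_left 2
  · intro hU'
    refine ⟨{a, b}, ?_, by simp, {v}, u, b, hba, by rw [Finset.card_pair hba.symm]; simp,
      fun x hx hxS => ?_⟩
    · intro i hi
      rcases Finset.mem_insert.1 hi with rfl | hi
      · exact ha
      · rw [Finset.mem_singleton.1 hi]; exact hbI
    · by_cases c2 : G.Adj x v
      · exact Or.inl ⟨v, by simp, c2⟩
      have hx' : σ' x = a := by
        simp only [σ']
        split_ifs with c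
        · rfl
        · simpa [c] using hxS
      have hxU : x ∉ U' := fun h => hU' x h hx'
      have : ¬ (σ x = a ∨ ¬ G.Adj x u) := fun h => hxU ⟨hx, h, c2⟩
      push Not at this
      exact Or.inr ⟨by simpa [this.1] using hxS, this.2⟩
  · rintro ⟨S, hS1, hS2, Z, w, y, hy, hZ1, hZ2⟩
    have hbS : b ∉ S := fun h => (Finset.mem_erase.1 (hS1 h)).1 rfl
    refine ⟨insert b S, ?_, Finset.mem_insert_of_mem hS2, insert u (insert v Z), w, y, hy, ?_, ?_⟩
    · intro i hi
      rcases Finset.mem_insert.1 hi with rfl | hi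
      · exact hbI
      · exact (Finset.mem_erase.1 (hS1 hi)).2
    · rw [Finset.card_insert_of_notMem hbS]
      have := Finset.card_insert_le u (insert v Z)
      have := Finset.card_insert_le v Z
      omega
    · intro x hx hxS
      by_cases c1 : G.Adj x u
      · exact Or.inl ⟨u, by simp, c1⟩
      by_cases c2 : G.Adj x v
      · exact Or.inl ⟨v, by simp, c2⟩
      have : σ' x ∈ S := by
        simp only [σ']
        split_ifs with c
        · exact hS2
        · exact (Finset.mem_insert.1 hxS).resolve_left c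
      rcases hZ2 x ⟨hx, Or.inr c1, c2⟩ this with ⟨z, hz, hxz⟩ | ⟨h5, h6⟩
      · exact Or.inl ⟨z, by simp [hz], hxz⟩
      · refine Or.inr ⟨?_, h6⟩
        simp only [σ'] at h5
        split_ifs at h5 with c
        · exact (hy h5.symm).elim
        · exact h5
  · rintro ⟨T', g1, g2, g3⟩
    have hoth : ∀ i ∈ I, i ≠ a → i ≠ b → ∃ x ∈ T', σ x = i := by
      intro i hi h1 h2
      obtain ⟨x, hx, hxi⟩ := g3 i (Finset.mem_erase.2 ⟨h2, hi⟩)
      refine ⟨x, hx, ?_⟩
      simp only [σ'] at hxi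
      split_ifs at hxi with c
      · exact (h1 hxi.symm).elim
      · exact hxi
    have hins : ∀ w, w ∈ U → (∀ x ∈ T', ¬ G.Adj x w) →
        (∀ i ∈ I, ∃ x ∈ insert w T', σ x = i) → False := by
      intro w hw hw2 hw3
      refine hno ⟨insert w T', ?_, ?_, hw3⟩
      · rintro x (rfl | hx)
        · exact hw
        · exact (g1 hx).1
      · rintro x (rfl | hx) z (rfl | hz)
        · exact G.irrefl
        · exact fun h => hw2 z hz h.symm
        · exact hw2 x hx
        · exact g2 x hx z hz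
    by_cases c : ∃ y ∈ T', σ y = a
    · obtain ⟨y, hy, hya'⟩ := c
      refine hins v hvU (fun x hx => (g1 hx).2.2) fun i hi => ?_
      by_cases i1 : i = a
      · exact ⟨y, Or.inr hy, hya'.trans i1.symm⟩
      by_cases i2 : i = b
      · exact ⟨v, Or.inl rfl, i2.symm⟩
      obtain ⟨x, hx, hxi⟩ := hoth i hi i1 i2
      exact ⟨x, Or.inr hx, hxi⟩
    · obtain ⟨y, hy, hya⟩ := g3 a (Finset.mem_erase.2 ⟨hba.symm, ha⟩)
      have hyb : σ y = b := by
        by_contra c'
        exact c ⟨y, hy, by simpa only [σ', if_neg c'] using hya⟩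
      refine hins u huU (fun x hx => (g1 hx).2.1.resolve_left fun e => c ⟨x, hx, e⟩) fun i hi => ?_
      by_cases i1 : i = a
      · exact ⟨u, Or.inl rfl, hua.trans i1.symm⟩
      by_cases i2 : i = b
      · exact ⟨y, Or.inr hy, hyb.trans i2.symm⟩
      obtain ⟨x, hx, hxi⟩ := hoth i hi i1 i2
      exact ⟨x, Or.inr hx, hxi⟩
  · refine ⟨{x ∈ T | x ≠ u ∧ x ≠ v}, ?_, ?_, ?_⟩
    · rintro x ⟨hx, hxu, hxv⟩
      refine ⟨h1 hx, Or.inr fun h => h2 x hx u huvT.1 ((hG'adj x u).2 ⟨h, fun e => ?_⟩),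
        fun h => h2 x hx v huvT.2 ((hG'adj x v).2 ⟨h, fun e => ?_⟩)⟩
      · rcases Sym2.eq_iff.1 e with ⟨h, -⟩ | ⟨h, -⟩
        · exact hxu h
        · exact hxv h
      · rcases Sym2.eq_iff.1 e with ⟨h, -⟩ | ⟨h, -⟩
        · exact hxu h
        · exact hxv h
    · rintro x ⟨hx, hxu, hxv⟩ y ⟨hy, -⟩ hxy
      refine h2 x hx y hy ((hG'adj x y).2 ⟨hxy, fun e => ?_⟩)
      rcases Sym2.eq_iff.1 e with ⟨h, -⟩ | ⟨h, -⟩
      · exact hxu h
      · exact hxv h
    · intro i hi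
      obtain ⟨hia, hi⟩ := Finset.mem_erase.1 hi
      obtain ⟨hib, hi⟩ := Finset.mem_erase.1 hi
      obtain ⟨x, hx, hxi⟩ := h3 i hi
      refine ⟨x, ⟨hx, fun e => hia ?_, fun e => hib ?_⟩, ?_⟩
      · rw [← hxi, e, hua]
      · rw [← hxi, e]
      · simp only [σ']
        rw [if_neg (by rw [hxi]; exact hib), hxi]

/-- Refined deficiency version, for classes that are all nonempty. -/
theorem haxell_deficiency' [Fintype V] (G : SimpleGraph V) (σ : V → ι) (K : Finset ι)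
    (hK : ∀ i ∈ K, ∃ x, σ x = i) :
    ∃ J : Finset ι, J ⊆ K ∧ (∃ T, IsIT G Set.univ σ J T) ∧ (J = K ∨
      ∃ B : Finset ι, B ⊆ K ∧ K \ J ⊆ B ∧ ∃ (Z : Finset V) (w : V) (y : ι),
        Z.card + 1 ≤ 2 * (B ∩ J).card ∧
        ∀ x, σ x ∈ B → (∃ z ∈ Z, G.Adj x z) ∨ (σ x = y ∧ G.Adj x w)) := by
  obtain ⟨J, hJ, hmax⟩ := Finset.exists_max_image
    (K.powerset.filter fun J => ∃ T, IsIT G Set.univ σ J T) Finset.card
    ⟨∅, by
      simp only [Finset.mem_filter, Finset.mem_powerset, Finset.empty_subset, true_and]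
      exact ⟨∅, by simp, by simp, by simp⟩⟩
  simp only [Finset.mem_filter, Finset.mem_powerset] at hJ hmax
  refine ⟨J, hJ.1, hJ.2, ?_⟩
  by_cases hKJ : K \ J = ∅
  · exact Or.inl (Finset.Subset.antisymm hJ.1 (Finset.sdiff_eq_empty_iff_subset.1 hKJ))
  right
  obtain ⟨a, ha⟩ := Finset.nonempty_iff_ne_empty.2 hKJ
  obtain ⟨haK, haJ⟩ := Finset.mem_sdiff.1 ha
  let σ' : V → ι := fun x => if σ x ∈ K \ J then a else σ x
  refine (haxell_aux' _ (insert a J) rfl _ G rfl Set.univ σ' a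
    (Finset.mem_insert_self _ _) ?_ ?_).elim ?_ ?_
  rotate_left 2
  · intro h
    obtain ⟨x, hx⟩ := hK a haK
    exact (h x trivial (by simp only [σ']; rw [if_pos (hx ▸ ha)])).elim
  · rintro ⟨S, hS1, hS2, Z, w, y, hy, hZ1, hZ2⟩
    refine ⟨K \ J ∪ S.erase a, ?_, Finset.subset_union_left, Z, w, y, ?_, fun x hx => ?_⟩
    · intro i hi
      rcases Finset.mem_union.1 hi with hi | hi
      · exact (Finset.mem_sdiff.1 hi).1
      · obtain ⟨h1, h2⟩ := Finset.mem_erase.1 hi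
        exact hJ.1 ((Finset.mem_insert.1 (hS1 h2)).resolve_left h1)
    · have : S.erase a ⊆ (K \ J ∪ S.erase a) ∩ J := by
        intro i hi
        obtain ⟨h1, h2⟩ := Finset.mem_erase.1 hi
        exact Finset.mem_inter.2 ⟨Finset.mem_union_right _ hi,
          (Finset.mem_insert.1 (hS1 h2)).resolve_left h1⟩
      have h1 := Finset.card_le_card this
      have h2 := Finset.card_erase_add_one hS2
      omega
    · have : σ' x ∈ S := by
        simp only [σ']
        split_ifs with c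
        · exact hS2
        · exact (Finset.mem_erase.1 ((Finset.mem_union.1 hx).resolve_left c)).2
      refine (hZ2 x trivial this).imp_right fun h => ⟨?_, h.2⟩
      have h5 := h.1
      simp only [σ'] at h5
      split_ifs at h5 with c
      · exact (hy h5.symm).elim
      · exact h5
  · rintro ⟨T, h1, h2, h3⟩
    obtain ⟨y, hy, hya⟩ := h3 a (Finset.mem_insert_self _ _)
    have hyK : σ y ∈ K \ J := by
      by_contra c
      simp only [σ', if_neg c] at hya
      exact c (hya ▸ ha)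
    obtain ⟨hy1, hy2⟩ := Finset.mem_sdiff.1 hyK
    have := hmax (insert (σ y) J) ⟨Finset.insert_subset hy1 hJ.1, T, h1, h2, fun i hi => ?_⟩
    · rw [Finset.card_insert_of_notMem hy2] at this; omega
    · rcases Finset.mem_insert.1 hi with rfl | hi
      · exact ⟨y, hy, rfl⟩
      · obtain ⟨x, hx, hxi⟩ := h3 i (Finset.mem_insert_of_mem hi)
        refine ⟨x, hx, ?_⟩
        simp only [σ'] at hxi
        split_ifs at hxi with c
        · exact (haJ (hxi ▸ hi)).elim
        · exact hxi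
  · obtain ⟨T, h1, h2, h3⟩ := hJ.2
    refine ⟨T, h1, h2, fun i hi => ?_⟩
    rw [Finset.erase_insert haJ] at hi
    obtain ⟨x, hx, hxi⟩ := h3 i hi
    refine ⟨x, hx, ?_⟩
    simp only [σ']
    rw [if_neg (by rw [hxi]; simp [hi]), hxi]

end Pool.Agent.Lib.Haxell
end
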